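import Pool.Agent.InclVar.Basic

/-!
# A family of bands

For an index type `I` we build a band `Tn I` of pairs of transformations, together with the
identity-like disjunction that all of its elements satisfy.
-/

namespace Pool.Agent.InclVar.BandFamily

set_option linter.unusedSectionVars false
set_option linter.unusedSimpArgs false
set_option linter.unusedTactic false

/-- The three-element left zero semigroup with identity adjoined. -/
inductive L
  | zero | one | id
  deriving DecidableEq

/-- Multiplication of `L`: `id` is the identity, the two other elements are left zeros. -/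
def L.mul : L → L → L
  | .id, b => b
  | a, _ => a

instance : Mul L := ⟨L.mul⟩

@[simp] theorem L.id_mul' (b : L) : L.id * b = b := rfl
@[simp] theorem L.zero_mul' (b : L) : L.zero * b = L.zero := rfl
@[simp] theorem L.one_mul' (b : L) : L.one * b = L.one := rfl
@[simp] theorem L.mul_id' (b : L) : b * L.id = b := by cases b <;> rfl

theorem L.assoc (a b c : L) : a * b * c = a * (b * c) := by cases a <;> rfl
theorem L.aba (a b : L) : a * b * a = a * b := by cases a <;> cases b <;> rfl
theorem L.aa (a : L) : a * a = a := by cases a <;> rfl
theorem L.ne_id_mul {a : L} (h : a ≠ L.id) (b : L) : a * b = a := by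
  cases a
  · rfl
  · rfl
  · exact absurd rfl h
theorem L.mul_ne_id {a b : L} (h : b ≠ L.id) : a * b ≠ L.id := by
  cases a
  · intro h'; cases h'
  · intro h'; cases h'
  · exact h

variable (I : Type)

/-- The flat semilattice with top `one`, bottom `y` and pairwise incomparable `x i`. -/
inductive P
  | one | x (i : I) | y

/-- The points on which the right transformations act. -/
inductive B
  | st (p : P I) | gam | zer

/-- Labels of the transformations `qa`. -/
inductive Q
  | one | c2 | c4
  deriving DecidableEq

variable {I} [DecidableEq I]

/-- Meet in `P I`. -/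
def P.mul : P I → P I → P I
  | .one, p => p
  | .y, _ => .y
  | .x i, .one => .x i
  | .x _, .y => .y
  | .x i, .x j => if i = j then .x i else .y

/-- The action of `P I` on the points. -/
def px (p : P I) : B I → B I
  | .st p0 => .st (P.mul p0 p)
  | .gam => .gam
  | .zer => .zer

/-- The transformations of the points labelled by `Q`. -/
def qa : Q → B I → B I
  | .one, b => b
  | .c2, .st .y => .st .y
  | .c2, _ => .zer
  | .c4, .st .y => .zer
  | .c4, .zer => .zer
  | .c4, _ => .gam

@[simp] theorem P.mul_one (p : P I) : P.mul p .one = p := by cases p <;> rfl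
@[simp] theorem P.one_mul (p : P I) : P.mul .one p = p := rfl
@[simp] theorem P.y_mul (p : P I) : P.mul .y p = .y := rfl
@[simp] theorem P.mul_y (p : P I) : P.mul p .y = .y := by cases p <;> rfl
@[simp] theorem P.idem (p : P I) : P.mul p p = p := by cases p <;> simp [P.mul]

theorem P.comm (p q : P I) : P.mul p q = P.mul q p := by
  rcases p with _ | i | _ <;> rcases q with _ | j | _ <;> try rfl
  simp only [P.mul]
  by_cases h : i = j
  · subst h; rfl
  · rw [if_neg h, if_neg (Ne.symm h)]

theorem P.assoc (p q r : P I) : P.mul (P.mul p q) r = P.mul p (P.mul q r) := by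
  rcases p with _ | i | _ <;> rcases q with _ | j | _ <;> rcases r with _ | k | _ <;>
    (try rfl) <;> (try simp; done)
  simp only [P.mul]
  by_cases h : i = j <;> by_cases h' : j = k
  · subst h; subst h'; simp [P.mul]
  · subst h; simp [P.mul, h']
  · subst h'; simp [P.mul, h]
  · simp [P.mul, h, h']

@[simp] theorem px_zer (p : P I) : px p .zer = .zer := rfl
@[simp] theorem px_gam (p : P I) : px p .gam = .gam := rfl
@[simp] theorem px_one (b : B I) : px .one b = b := by cases b <;> simp [px]
@[simp] theorem qa_zer (q : Q) : qa q (.zer : B I) = .zer := by cases q <;> rfl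
@[simp] theorem qa_one (b : B I) : qa .one b = b := rfl

theorem px_px (p p' : P I) (b : B I) : px p (px p' b) = px (P.mul p' p) b := by
  cases b <;> simp [px, P.assoc]

theorem c2_cases (b : B I) : qa .c2 b = .st .y ∨ qa .c2 b = .zer := by
  rcases b with (_ | i | _) | _ | _ <;> simp [qa]

theorem c4_cases (b : B I) : qa .c4 b = .gam ∨ qa .c4 b = .zer := by
  rcases b with (_ | i | _) | _ | _ <;> simp [qa]

theorem px_qa {q : Q} (hq : q ≠ .one) (p : P I) (b : B I) : px p (qa q b) = qa q b := by
  cases q
  · exact absurd rfl hq
  · rcases c2_cases b with h | h <;> rw [h] <;> simp [px]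
  · rcases c4_cases b with h | h <;> rw [h] <;> simp [px]

@[simp] theorem qa_same (q : Q) (b : B I) : qa q (qa q b) = qa q b := by
  cases q
  · rfl
  · rcases c2_cases b with h | h <;> rw [h] <;> rfl
  · rcases c4_cases b with h | h <;> rw [h] <;> rfl

theorem qa_ne {q q' : Q} (hq : q ≠ .one) (hq' : q' ≠ .one) (h : q ≠ q') (b : B I) :
    qa q (qa q' b) = .zer := by
  cases q <;> cases q' <;> first | exact absurd rfl hq | exact absurd rfl hq' | exact absurd rfl h | skip
  · rcases c4_cases b with h | h <;> rw [h] <;> rfl
  · rcases c2_cases b with h | h <;> rw [h] <;> rfl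

theorem cover (b : B I) : b = .zer ∨ qa .c2 b = .zer ∨ qa .c4 b = .zer := by
  rcases b with (_ | i | _) | _ | _ <;> simp [qa]

variable (I) in
/-- Pairs consisting of an element of `L` and a transformation of the points. -/
@[ext] structure Tr where
  /-- the left part -/
  l : L
  /-- the right part -/
  r : B I → B I

omit [DecidableEq I] in
instance : Semigroup (Tr I) where
  mul s t := ⟨s.l * t.l, fun b => t.r (s.r b)⟩
  mul_assoc a b c := by
    apply Tr.ext
    · exact L.assoc _ _ _
    · rfl

@[simp] theorem Tr.mul_l (s t : Tr I) : (s * t).l = s.l * t.l := rfl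
@[simp] theorem Tr.mul_r (s t : Tr I) (b : B I) : (s * t).r b = t.r (s.r b) := rfl

/-- The elements of the band. -/
inductive Good : Tr I → Prop
  | cst (l : L) (b : B I) (hl : l ≠ .id) : Good ⟨l, fun _ => b⟩
  | k : Good ⟨.id, fun _ => .zer⟩
  | h (q : Q) (hq : q ≠ .one) : Good ⟨.id, qa q⟩
  | nc (p : P I) (q : Q) : Good ⟨.one, fun b => qa q (px p b)⟩

theorem Good.congr {s t : Tr I} (hs : Good s) (hl : s.l = t.l) (hr : ∀ b, s.r b = t.r b) :
    Good t := by
  have : s = t := Tr.ext hl (funext hr)
  exact this ▸ hs

theorem Good.mul {s t : Tr I} (hs : Good s) (ht : Good t) : Good (s * t) := by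
  cases ht with
  | cst l b hl =>
    exact (Good.cst (s.l * l) b (L.mul_ne_id hl)).congr rfl fun _ => rfl
  | k =>
    cases hs with
    | cst l b hl => exact (Good.cst l .zer hl).congr (by simp) fun _ => rfl
    | k => exact Good.k.congr rfl fun _ => rfl
    | h q hq => exact Good.k.congr rfl fun _ => rfl
    | nc p q => exact (Good.cst .one .zer (by intro h; cases h)).congr rfl fun _ => rfl
  | h q' hq' =>
    cases hs with
    | cst l b hl => exact (Good.cst l (qa q' b) hl).congr (by simp) fun _ => rfl
    | k => exact Good.k.congr rfl fun _ => by simp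
    | h q hq =>
      by_cases hqq : q' = q
      · subst hqq
        exact (Good.h q' hq').congr rfl fun _ => by simp
      · exact Good.k.congr rfl fun _ => by simp [qa_ne hq' hq hqq]
    | nc p q =>
      by_cases hq : q = .one
      · subst hq
        exact (Good.nc p q').congr rfl fun _ => rfl
      · by_cases hqq : q' = q
        · subst hqq
          exact (Good.nc p q').congr rfl fun _ => by simp
        · exact (Good.cst .one .zer (by intro h; cases h)).congr rfl fun _ => by
            simp [qa_ne hq' hq hqq]
  | nc p' q' =>
    cases hs with
    | cst l b hl =>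
      exact (Good.cst l (qa q' (px p' b)) hl).congr (L.ne_id_mul hl _).symm fun _ => rfl
    | k => exact (Good.cst .one .zer (by intro h; cases h)).congr rfl fun _ => by simp
    | h q hq =>
      by_cases hq' : q' = .one
      · subst hq'
        exact (Good.nc .one q).congr rfl fun _ => by simp [px_qa hq]
      · by_cases hqq : q' = q
        · subst hqq
          exact (Good.nc .one q').congr rfl fun _ => by simp [px_qa hq]
        · exact (Good.cst .one .zer (by intro h; cases h)).congr rfl fun _ => by
            simp [px_qa hq, qa_ne hq' hq hqq]
    | nc p q =>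
      by_cases hq : q = .one
      · subst hq
        exact (Good.nc (P.mul p p') q').congr rfl fun _ => by simp [px_px]
      · by_cases hq' : q' = .one
        · subst hq'
          exact (Good.nc p q).congr rfl fun _ => by simp [px_qa hq]
        · by_cases hqq : q' = q
          · subst hqq
            exact (Good.nc p q').congr rfl fun _ => by simp [px_qa hq]
          · exact (Good.cst .one .zer (by intro h; cases h)).congr rfl fun _ => by
              simp [px_qa hq, qa_ne hq' hq hqq]

theorem Good.idem {s : Tr I} (hs : Good s) : s * s = s := by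
  refine Tr.ext (L.aa _) (funext fun b => ?_)
  rw [Tr.mul_r]
  cases hs with
  | cst l b hl => rfl
  | k => rfl
  | h q hq => simp
  | nc p q =>
    change qa q (px p (qa q (px p b))) = qa q (px p b)
    by_cases hq : q = .one
    · subst hq; simp [px_px]
    · simp [px_qa hq]

/-- Soft transformations: the zero map and the maps `qa q ∘ px p`. -/
def Soft (r : B I → B I) : Prop := (∀ b, r b = .zer) ∨ ∃ p q, ∀ b, r b = qa q (px p b)

theorem Soft.aba {r s : B I → B I} (hr : Soft r) (hs : Soft s) (b : B I) :
    r (s (r b)) = s (r b) := by
  rcases hr with hr | ⟨p, q, hr⟩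
  · rcases hs with hs | ⟨p', q', hs⟩
    · rw [hs, hr]
    · rw [hr b, hs, hr]; simp
  · rcases hs with hs | ⟨p', q', hs⟩
    · rw [hs, hr]; simp
    · rw [hr b, hs, hr]
      by_cases hq : q = .one
      · subst hq
        by_cases hq' : q' = .one
        · subst hq'
          simp only [qa_one, px_px]
          rw [P.comm p p', P.assoc, P.idem]
        · simp only [qa_one]
          rw [px_qa hq']
      · rw [px_qa hq]
        by_cases hq' : q' = .one
        · subst hq'
          simp only [qa_one]
          rw [px_qa hq, qa_same]
        · rw [px_qa hq']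
          by_cases hqq : q = q'
          · subst hqq; simp
          · rw [qa_ne hq' hq (Ne.symm hqq)]; simp

/-- The right part of a good element is constant with left part `≠ id`, or soft. -/
theorem Good.cases' {s : Tr I} (hs : Good s) :
    (s.l ≠ .id ∧ ∃ b, ∀ x, s.r x = b) ∨ Soft s.r := by
  cases hs with
  | cst l b hl => exact Or.inl ⟨hl, b, fun _ => rfl⟩
  | k => exact Or.inr (Or.inl fun _ => rfl)
  | h q hq => exact Or.inr (Or.inr ⟨.one, q, fun _ => by simp⟩)
  | nc p q => exact Or.inr (Or.inr ⟨p, q, fun _ => rfl⟩)

theorem Good.of_l_zero {s : Tr I} (hs : Good s) (h : s.l = .zero) : ∃ b, ∀ x, s.r x = b := by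
  cases hs with
  | cst l b hl => exact ⟨b, fun _ => rfl⟩
  | k => cases h
  | h q hq => cases h
  | nc p q => cases h

theorem Good.of_l_id {s : Tr I} (hs : Good s) (h : s.l = .id) :
    (∀ x, s.r x = .zer) ∨ ∃ q, q ≠ .one ∧ ∀ x, s.r x = qa q x := by
  cases hs with
  | cst l b hl => exact absurd h hl
  | k => exact Or.inl fun _ => rfl
  | h q hq => exact Or.inr ⟨q, hq, fun _ => rfl⟩
  | nc p q => cases h

/-- The disjunction satisfied by the elements of the band. -/
theorem disjunction {f g c X : Tr I} (hf : Good f) (hg : Good g) (hc : Good c) :
    f * g * c * (f * g) = f * g ∨ f * g * c * (f * g) = f * g * c ∨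
    f * g * c * (f * g) = c * g ∨ f * g * c * (f * g) = f * g * X * c * (f * g) ∨
    f * g * c * (f * g) = c * X ∨ f * g * c * (f * g) = c * X * f ∨
    f * g * c * (f * g) = c * X * g := by
  have he : Good (f * g) := hf.mul hg
  rcases hc.cases' with ⟨hcl, bc, hbc⟩ | hsc
  · -- `c` is constant
    rcases hel : (f * g).l with _ | _ | _
    · -- left part zero
      left
      obtain ⟨be, hbe⟩ := he.of_l_zero hel
      refine Tr.ext ?_ (funext fun b => ?_)
      · rw [Tr.mul_l, Tr.mul_l, hel]; rfl
      · rw [Tr.mul_r, hbe, hbe]
    · -- left part one
      right; right; right; left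
      refine Tr.ext ?_ (funext fun b => ?_)
      · simp only [Tr.mul_l] at hel ⊢
        rw [hel]; rfl
      · simp only [Tr.mul_r, hbc]
    · -- left part id
      have hfl : f.l = .id ∧ g.l = .id := by
        rw [Tr.mul_l] at hel
        rcases h1 : f.l with _ | _ | _ <;> rcases h2 : g.l with _ | _ | _ <;>
          rw [h1, h2] at hel <;> first | exact ⟨rfl, rfl⟩ | cases hel
      obtain ⟨hfl, hgl⟩ := hfl
      have hul : (f * g * c * (f * g)).l = c.l := by
        rw [Tr.mul_l, Tr.mul_l, hel, L.id_mul', L.mul_id']
      have hur : ∀ b, (f * g * c * (f * g)).r b = g.r (f.r bc) := by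
        intro b
        simp only [Tr.mul_r, hbc]
      rcases hg.of_l_id hgl with hg0 | ⟨q', hq', hg0⟩
      · -- `g` is zero
        right; right; left
        refine Tr.ext ?_ (funext fun b => ?_)
        · rw [hul, Tr.mul_l, hgl, L.mul_id']
        · rw [hur, Tr.mul_r, hg0, hg0]
      · rcases hf.of_l_id hfl with hf0 | ⟨q, hq, hf0⟩
        · -- `f` is zero
          right; right; right; right; right; left
          refine Tr.ext ?_ (funext fun b => ?_)
          · rw [hul, Tr.mul_l, Tr.mul_l, hfl, L.mul_id', L.ne_id_mul hcl]
          · rw [hur, Tr.mul_r, hf0, hf0, hg0]; simp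
        · by_cases hqq : q' = q
          · subst hqq
            right; right; left
            refine Tr.ext ?_ (funext fun b => ?_)
            · rw [hul, Tr.mul_l, hgl, L.mul_id']
            · rw [hur, Tr.mul_r, hbc, hf0, hg0, hg0]; simp
          · have hz : g.r (f.r bc) = .zer := by
              rw [hf0, hg0, qa_ne hq' hq hqq]
            have hcover : X.r bc = .zer ∨ f.r (X.r bc) = .zer ∨ g.r (X.r bc) = .zer := by
              rcases cover (X.r bc) with h | h | h
              · exact Or.inl h
              · cases q
                · exact absurd rfl hq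
                · right; left; rw [hf0]; exact h
                · cases q'
                  · exact absurd rfl hq'
                  · right; right; rw [hg0]; exact h
                  · exact absurd rfl hqq
              · cases q
                · exact absurd rfl hq
                · cases q'
                  · exact absurd rfl hq'
                  · exact absurd rfl hqq
                  · right; right; rw [hg0]; exact h
                · right; left; rw [hf0]; exact h
            rcases hcover with h | h | h
            · right; right; right; right; left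
              refine Tr.ext ?_ (funext fun b => ?_)
              · rw [hul, Tr.mul_l, L.ne_id_mul hcl]
              · rw [hur, Tr.mul_r, hbc, h, hz]
            · right; right; right; right; right; left
              refine Tr.ext ?_ (funext fun b => ?_)
              · rw [hul, Tr.mul_l, Tr.mul_l, hfl, L.mul_id', L.ne_id_mul hcl]
              · rw [hur, Tr.mul_r, Tr.mul_r, hbc, h, hz]
            · right; right; right; right; right; right
              refine Tr.ext ?_ (funext fun b => ?_)
              · rw [hul, Tr.mul_l, Tr.mul_l, hgl, L.mul_id', L.ne_id_mul hcl]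
              · rw [hur, Tr.mul_r, Tr.mul_r, hbc, h, hz]
  · rcases he.cases' with ⟨hel, be, hbe⟩ | hse
    · -- `f * g` is constant
      left
      refine Tr.ext ?_ (funext fun b => ?_)
      · rw [Tr.mul_l, Tr.mul_l, L.assoc, L.ne_id_mul hel]
      · rw [Tr.mul_r, hbe, hbe]
    · right; left
      refine Tr.ext ?_ (funext fun b => ?_)
      · rw [Tr.mul_l (f * g * c), Tr.mul_l (f * g) c, L.aba]
      · rw [Tr.mul_r (f * g * c), Tr.mul_r (f * g) c]
        exact hse.aba hsc b

variable (I) in
/-- The band of good elements. -/
def Tn : Subsemigroup (Tr I) where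
  carrier := {s | Good s}
  mul_mem' := Good.mul

omit [DecidableEq I] in
instance P.finite [Finite I] : Finite (P I) :=
  Finite.of_surjective (fun o : Option (Option I) => match o with
    | none => P.one
    | some none => P.y
    | some (some i) => P.x i) (by
      intro p
      rcases p with _ | i | _
      · exact ⟨none, rfl⟩
      · exact ⟨some (some i), rfl⟩
      · exact ⟨some none, rfl⟩)

omit [DecidableEq I] in
instance B.finite [Finite I] : Finite (B I) :=
  Finite.of_surjective (fun o : Option (Option (P I)) => match o with
    | none => B.gam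
    | some none => B.zer
    | some (some p) => B.st p) (by
      intro b
      rcases b with p | _ | _
      · exact ⟨some (some p), rfl⟩
      · exact ⟨none, rfl⟩
      · exact ⟨some none, rfl⟩)

instance L.finite : Finite L :=
  Finite.of_surjective (fun i : Fin 3 => (![L.zero, L.one, L.id] : Fin 3 → L) i) (by
    intro l
    cases l
    · exact ⟨0, rfl⟩
    · exact ⟨1, rfl⟩
    · exact ⟨2, rfl⟩)

omit [DecidableEq I] in
instance Tr.finite [Finite I] : Finite (Tr I) :=
  Finite.of_injective (fun t : Tr I => (t.l, t.r)) (by
    intro s t h
    exact Tr.ext (congrArg Prod.fst h) (congrArg Prod.snd h))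

end Pool.Agent.InclVar.BandFamily
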