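import Mathlib

/-!
# Identical inclusions and inclusive varieties of semigroups

The alphabet is `ℕ`, the free semigroup of nonempty words is `FreeSemigroup ℕ`.
-/

namespace Pool.Agent.InclVar

universe u

/-- An identical inclusion `lhs ∈^ rhs`: a nonempty word `lhs` and a nonempty (finite or countably
infinite) set `rhs` of nonempty words over the countably infinite alphabet `ℕ`. -/
structure Inclusion where
  /-- the word on the left -/
  lhs : FreeSemigroup ℕ
  /-- the set of words on the right -/
  rhs : Set (FreeSemigroup ℕ)
  /-- the set on the right is nonempty -/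
  rhs_nonempty : rhs.Nonempty

/-- The semigroup `S` satisfies the identical inclusion `ι`: for every homomorphism
`φ` from the free semigroup to `S` some `v` in the right-hand side has `φ v = φ lhs`. -/
def Satisfies (S : Type u) [Semigroup S] (ι : Inclusion) : Prop :=
  ∀ φ : FreeSemigroup ℕ →ₙ* S, ∃ v ∈ ι.rhs, φ ι.lhs = φ v

/-- A class of semigroups (with carrier in `Type u`). -/
abbrev SemigroupClass : Type (u + 1) := ∀ (S : Type u) [Semigroup S], Prop

/-- The class of all semigroups satisfying every member of the set `Δ` of identical inclusions. -/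
def models (Δ : Set Inclusion) : SemigroupClass.{u} :=
  fun S _ => ∀ ι ∈ Δ, Satisfies S ι

/-- `C` is an inclusive variety: it is defined by some set of identical inclusions. -/
def IsInclusiveVariety (C : SemigroupClass.{u}) : Prop :=
  ∃ Δ : Set Inclusion, C = models Δ

/-- Inclusion of classes of semigroups. -/
def SubClass (C D : SemigroupClass.{u}) : Prop :=
  ∀ (S : Type u) [Semigroup S], C S → D S

/-- The inclusive variety generated by the semigroup `S`: all semigroups that satisfy every
identical inclusion satisfied by `S`. -/
def generatedBy (S : Type u) [Semigroup S] : SemigroupClass.{u} :=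
  models {ι | Satisfies S ι}

theorem generatedBy_isInclusiveVariety (S : Type u) [Semigroup S] :
    IsInclusiveVariety (generatedBy S) := ⟨_, rfl⟩

theorem self_mem_generatedBy (S : Type u) [Semigroup S] : generatedBy S S :=
  fun _ h => h

/-- Every word is a letter, a product of two letters, or a product of three words. -/
theorem word_cases (w : FreeSemigroup ℕ) :
    (∃ x, w = FreeSemigroup.of x) ∨
    (∃ x y, w = FreeSemigroup.of x * FreeSemigroup.of y) ∨
    (∃ a b c : FreeSemigroup ℕ, w = a * b * c) := by
  rcases w with ⟨x, l⟩
  rcases l with _ | ⟨y, l⟩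
  · exact Or.inl ⟨x, rfl⟩
  · rcases l with _ | ⟨z, l⟩
    · exact Or.inr (Or.inl ⟨x, y, rfl⟩)
    · exact Or.inr (Or.inr ⟨FreeSemigroup.of x, FreeSemigroup.of y, ⟨z, l⟩, rfl⟩)

end Pool.Agent.InclVar
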