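import Pool.Agent.InclVar.Basic

/-!
# First-order axiomatisability of inclusive varieties
-/

namespace Pool.Agent.InclVar

open Filter

universe u

/-- The function symbols of the language of semigroups: one binary operation. -/
inductive MulSymbol : ℕ → Type
  | mul : MulSymbol 2

/-- The first-order language with one binary operation symbol and no relation symbols. -/
def mulLanguage : FirstOrder.Language.{0, 0} := ⟨MulSymbol, fun _ => Empty⟩

/-- A set with a multiplication as a structure for the language with one binary operation. -/
@[instance_reducible]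
def mulStructure (S : Type u) [Mul S] : mulLanguage.Structure S where
  funMap := fun {n} (f : MulSymbol n) => match n, f with
    | _, .mul => fun v => v 0 * v 1
  RelMap := fun r => Empty.elim r

/-- The semigroup `S` is a model of the set `Th` of first-order sentences. -/
def IsModelOf (S : Type u) [Semigroup S] (Th : mulLanguage.Theory) : Prop :=
  @FirstOrder.Language.Theory.Model mulLanguage S (mulStructure S) Th

/-- The class `C` of semigroups is the class of all semigroups that are models of some set of
first-order sentences. -/
def IsFirstOrderDefinable (C : SemigroupClass.{u}) : Prop :=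
  ∃ Th : mulLanguage.Theory, ∀ (S : Type u) [Semigroup S], C S ↔ IsModelOf S Th

noncomputable section Ultra

set_option linter.unusedSectionVars false

variable (M : ℕ → Type u) [∀ n, Semigroup (M n)]

/-- The ultraproduct along the hyperfilter. -/
abbrev UP : Type u := ((hyperfilter ℕ : Ultrafilter ℕ) : Filter ℕ).Product M

/-- The class in the ultraproduct of a sequence. -/
def upMk (x : ∀ n, M n) : UP M :=
  @Quotient.mk' _ (productSetoid _ M) x

theorem upMk_surjective (q : UP M) : ∃ x, upMk M x = q :=
  @Quotient.inductionOn _ (productSetoid _ M) (fun q => ∃ x, upMk M x = q) q fun a => ⟨a, rfl⟩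

theorem upMk_eq {x y : ∀ n, M n} :
    upMk M x = upMk M y ↔ ∀ᶠ n in ((hyperfilter ℕ : Ultrafilter ℕ) : Filter ℕ), x n = y n :=
  @Quotient.eq'' _ (productSetoid _ M) _ _

/-- The structure on the ultraproduct. -/
@[instance_reducible]
def upStructure : mulLanguage.Structure (UP M) :=
  let _ : ∀ n, mulLanguage.Structure (M n) := fun n => mulStructure (M n)
  FirstOrder.Language.Ultraproduct.structure

instance upMul : Mul (UP M) where
  mul a b := @FirstOrder.Language.Structure.funMap _ _ (upStructure M) 2 MulSymbol.mul ![a, b]

theorem upMk_mul (x y : ∀ n, M n) : upMk M x * upMk M y = upMk M (fun n => x n * y n) := by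
  let _ : ∀ n, mulLanguage.Structure (M n) := fun n => mulStructure (M n)
  have h := FirstOrder.Language.Ultraproduct.funMap_cast (u := hyperfilter ℕ) (M := M) (L := mulLanguage)
    (n := 2) MulSymbol.mul ![x, y]
  have h1 : (fun i => ((![x, y] i : ∀ n, M n) : UP M)) = ![upMk M x, upMk M y] := by
    funext i
    fin_cases i <;> rfl
  rw [h1] at h
  exact h

instance upSemigroup : Semigroup (UP M) where
  mul_assoc a b c := by
    obtain ⟨x, rfl⟩ := upMk_surjective M a
    obtain ⟨y, rfl⟩ := upMk_surjective M b
    obtain ⟨z, rfl⟩ := upMk_surjective M c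
    rw [upMk_mul, upMk_mul, upMk_mul, upMk_mul]
    congr 1
    funext n
    exact mul_assoc _ _ _

theorem mulStructure_up : mulStructure (UP M) = upStructure M := by
  have hf : ∀ (n : ℕ) (f : MulSymbol n) (v : Fin n → UP M),
      @FirstOrder.Language.Structure.funMap mulLanguage _ (mulStructure (UP M)) n f v =
      @FirstOrder.Language.Structure.funMap mulLanguage _ (upStructure M) n f v := by
    intro n f v
    cases f
    change @FirstOrder.Language.Structure.funMap mulLanguage _ (upStructure M) 2 MulSymbol.mul ![v 0, v 1] = _
    congr 1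
    funext i
    fin_cases i <;> rfl
  refine FirstOrder.Language.Structure.ext ?_ ?_
  · funext n f v
    exact hf n f v
  · funext n r
    exact Empty.elim r

theorem up_model (Th : mulLanguage.Theory) [∀ n, Nonempty (M n)] (h : ∀ n, IsModelOf (M n) Th) :
    IsModelOf (UP M) Th := by
  let _ : ∀ n, mulLanguage.Structure (M n) := fun n => mulStructure (M n)
  unfold IsModelOf
  rw [mulStructure_up]
  refine @FirstOrder.Language.Theory.Model.mk mulLanguage (UP M) (upStructure M) Th ?_
  intro φ hφ
  have := (FirstOrder.Language.Ultraproduct.sentence_realize (u := hyperfilter ℕ) (M := M) φ).2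
    (Eventually.of_forall fun n => (h n).realize_of_mem φ hφ)
  exact this

end Ultra

/-- Criterion for a class defined by identical inclusions not to be first-order definable. -/
theorem not_firstOrderDefinable (Δ : Set Inclusion) (ι : Inclusion) (hι : ι ∈ Δ)
    (M : ℕ → Type u) [∀ n, Semigroup (M n)] [∀ n, Nonempty (M n)]
    (hM : ∀ n, models Δ (M n)) (f : ∀ n, ℕ → M n)
    (hf : ∀ v ∈ ι.rhs, ∀ᶠ n in atTop,
      FreeSemigroup.lift (f n) ι.lhs ≠ FreeSemigroup.lift (f n) v) :
    ¬ IsFirstOrderDefinable (models.{u} Δ) := by
  rintro ⟨Th, hTh⟩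
  have h1 : IsModelOf (UP M) Th := up_model M Th fun n => (hTh (M n)).1 (hM n)
  have h2 : models Δ (UP M) := (hTh (UP M)).2 h1
  obtain ⟨v, hv, e⟩ := h2 ι hι (FreeSemigroup.lift fun x => upMk M fun n => f n x)
  have key : ∀ w : FreeSemigroup ℕ, FreeSemigroup.lift (fun x => upMk M fun n => f n x) w =
      upMk M (fun n => FreeSemigroup.lift (f n) w) := by
    intro w
    induction w using FreeSemigroup.recOnMul with
    | ih1 x => simp only [FreeSemigroup.lift_of]
    | ih2 x y _ ih =>
      rw [map_mul, ih, FreeSemigroup.lift_of, upMk_mul]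
      congr 1
      funext n
      rw [map_mul, FreeSemigroup.lift_of]
  rw [key, key, upMk_eq] at e
  have h3 : ∀ᶠ n in ((hyperfilter ℕ : Ultrafilter ℕ) : Filter ℕ),
      FreeSemigroup.lift (f n) ι.lhs ≠ FreeSemigroup.lift (f n) v := by
    have h4 := hf v hv
    rw [← Nat.cofinite_eq_atTop] at h4
    exact hyperfilter_le_cofinite h4
  obtain ⟨n, hn, hn'⟩ := (e.and h3).exists
  exact hn' hn

end Pool.Agent.InclVar
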